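import Pool.Agent.Lib.MP_9abc2e_lc.FEW.Main

/-!
# Learning circuits with MOD_p gates and few wide AND, OR gates
-/

set_option autoImplicit false

namespace Pool.Agent.Lib.MP_9abc2e_lc.Draft

open Few

/-- For every prime `p` there are a learning program `A`, an evaluation program `E` and a constant `c`
with the following property. Let `f` be computed by a circuit of depth `d` with at most `t` AND, OR
gates of fan-in larger than `k`, the other gates being `MOD_p` gates, NOT gates and arbitrary gates of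
fan-in at most `k` (any number of them), and let `D ≥ (t + 1) K ^ d`, `K = max (k, p - 1, 1)`. For every
distribution on the cube: if `A` gets `D` and `m ≥ 4 p (n + 1) ^ (2 D) 2 ^ t (1 + log (1 / δ)) / ε`
random labelled examples, then with probability at least `1 - δ` it writes in time `m ^ c` a hypothesis
`H` which is evaluated by `E` in time `m ^ c` and has error at most `ε`. -/
theorem result (p : ℕ) [Fact p.Prime] : ∃ (A E : Prg) (c : ℕ), ∀ n d k t D : ℕ, 1 ≤ n →
    (t + 1) * max k (max (p - 1) 1) ^ d ≤ D → ∀ f ∈ FewWide p n d k t,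
    ∀ (μ : Dist n) (ε δ : ℝ), 0 < ε → ε ≤ 1 → 0 < δ → δ ≤ 1 → ∀ m : ℕ,
    4 * p * ((n + 1) ^ D) ^ 2 * 2 ^ t * (1 + Real.log (1 / δ)) / ε ≤ m →
    1 - δ ≤ μ.prS m {S | ∃ (H : T) (h : Cube n → Bool),
      (∃ τ ≤ m ^ c, Run A (T.cons (unary D) (smp f S)) H τ) ∧
      (∀ x, ∃ τ ≤ m ^ c, Run E (T.cons H (str x)) (bit (h x)) τ) ∧ μ.err f h ≤ ε} := by
  obtain ⟨A, E, c, h, _⟩ := Few.main p
  exact ⟨A, E, c, h⟩

end Pool.Agent.Lib.MP_9abc2e_lc.Draft
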